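import Mathlib
import Pool.Agent.Lib.MP_068a9c_al.Main

set_option autoImplicit false

namespace Pool.Agent.Results.MP_068a9c_al.OddPGroup

/-- Any two elements generate a finite subgroup. -/
def BinaryFinite (G : Type) [Group G] : Prop :=
  ∀ x y : G, Finite (Subgroup.closure ({x, y} : Set G))

/-- For every finite subgroup `H`, any two conjugate elements of prime order of `N(H)/H`
generate a finite subgroup of `N(H)/H`. -/
def ConjBiprimFinite (G : Type) [Group G] : Prop :=
  ∀ H : Subgroup G, Finite H →
    ∀ a b : Subgroup.normalizer (H : Set G) ⧸ H.subgroupOf (Subgroup.normalizer (H : Set G)),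
      (orderOf a).Prime → (orderOf b).Prime → IsConj a b →
      Finite (Subgroup.closure ({a, b} : Set (Subgroup.normalizer (H : Set G) ⧸
        H.subgroupOf (Subgroup.normalizer (H : Set G)))))

/-- `G` has a finite series from the trivial subgroup to `G`, each term normal in the next,
each factor a 2-group or a binary finite group. -/
def InE (G : Type) [Group G] : Prop :=
  ∃ (n : ℕ) (S : ℕ → Subgroup G), S 0 = ⊥ ∧ S n = ⊤ ∧
    ∀ i < n, S i ≤ S (i + 1) ∧ ∃ _ : ((S i).subgroupOf (S (i + 1))).Normal,
      IsPGroup 2 (S (i + 1) ⧸ (S i).subgroupOf (S (i + 1))) ∨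
        BinaryFinite (S (i + 1) ⧸ (S i).subgroupOf (S (i + 1)))

open Pool.Agent.Lib.MP_068a9c_al

theorem conjBiprimFinite_GG : ConjBiprimFinite GG := by
  intro H hH a b ha _ hab
  have hH' : (H : Set GG).Finite := Set.toFinite _
  obtain ⟨a, rfl⟩ := QuotientGroup.mk_surjective a
  obtain ⟨b, rfl⟩ := QuotientGroup.mk_surjective b
  obtain ⟨c, hc⟩ := isConj_iff.mp hab
  obtain ⟨c, rfl⟩ := QuotientGroup.mk_surjective c
  have haH : (a : GG) ∉ H := by
    intro h
    have : (QuotientGroup.mk a : _ ⧸ H.subgroupOf (Subgroup.normalizer (H : Set GG))) = 1 :=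
      (QuotientGroup.eq_one_iff a).mpr h
    rw [this, orderOf_one] at ha
    exact Nat.not_prime_one ha
  have hap : (a : GG) ^ (orderOf (QuotientGroup.mk a :
      _ ⧸ H.subgroupOf (Subgroup.normalizer (H : Set GG)))) ∈ H := by
    have h1 := pow_orderOf_eq_one (QuotientGroup.mk a :
      _ ⧸ H.subgroupOf (Subgroup.normalizer (H : Set GG)))
    rw [← QuotientGroup.mk_pow, QuotientGroup.eq_one_iff] at h1
    exact h1
  have hc' : (c : GG) * a * (c : GG)⁻¹ * (b : GG)⁻¹ ∈ H := by
    have h1 : (QuotientGroup.mk (c * a * c⁻¹ * b⁻¹) :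
        _ ⧸ H.subgroupOf (Subgroup.normalizer (H : Set GG))) = 1 := by
      rw [QuotientGroup.mk_mul, QuotientGroup.mk_mul, QuotientGroup.mk_mul, QuotientGroup.mk_inv,
        QuotientGroup.mk_inv, hc, mul_inv_cancel]
    rw [QuotientGroup.eq_one_iff] at h1
    exact h1
  have hfin := Mag.shunkov WW_isPGroup H hH' a a.2 b b.2 _ ha haH hap ⟨c, c.2, hc'⟩
  have h2 : (Subgroup.closure ({a, b} : Set (Subgroup.normalizer (H : Set GG))) :
      Set (Subgroup.normalizer (H : Set GG))).Finite := by
    refine (hfin.preimage (f := (Subgroup.normalizer (H : Set GG)).subtype)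
      Subtype.val_injective.injOn).subset ?_
    have : Subgroup.closure ({a, b} : Set (Subgroup.normalizer (H : Set GG))) ≤
        (Subgroup.closure (insert (a : GG) (insert (b : GG) (H : Set GG)))).comap
          (Subgroup.normalizer (H : Set GG)).subtype := by
      rw [Subgroup.closure_le]
      rintro x (rfl | rfl)
      · exact Subgroup.subset_closure (by simp)
      · exact Subgroup.subset_closure (by simp)
    exact this
  have h3 := h2.image (QuotientGroup.mk' (H.subgroupOf (Subgroup.normalizer (H : Set GG))))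
  rw [← Subgroup.coe_map, MonoidHom.map_closure, Set.image_pair] at h3
  exact h3.to_subtype

theorem not_inE_GG : ¬ InE GG := by
  rintro ⟨n, S, h0, hn, hS⟩
  have key : ∀ i ≤ n, ¬ Sec WW (S i) := by
    intro i
    induction i with
    | zero =>
      intro _
      rw [h0]
      exact not_sec_two _ IsPGroup.of_bot
    | succ i ih =>
      intro hi
      obtain ⟨hle, hN, hf⟩ := hS i hi
      refine not_sec_ext _ ((S i).subgroupOf (S (i + 1))) ?_ ?_
      · exact not_sec_iso _ _ (Subgroup.subgroupOfEquivOfLe hle).symm (ih (Nat.le_of_lt hi))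
      · rcases hf with hf | hf
        · exact not_sec_two _ hf
        · exact not_sec_binFin _ (fun x y => have := hf x y; Set.toFinite _)
  have := key n le_rfl
  rw [hn] at this
  exact not_sec_iso _ _ Subgroup.topEquiv this GG_sec

theorem result :
    ∃ p : ℕ, p.Prime ∧ Odd p ∧ ∃ (G : Type) (_ : Group G),
      IsPGroup p G ∧ ConjBiprimFinite G ∧ ¬ InE G :=
  ⟨3, Nat.prime_three, by decide, GG, inferInstance, GG_isPGroup, conjBiprimFinite_GG, not_inE_GG⟩

end Pool.Agent.Results.MP_068a9c_al.OddPGroup
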